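import Pool.Agent.Q73.TG.All

/-!
# Tubular control does not imply the `L^p` Logvinenko-Sereda property on spheres

Definitions (sphere, volume, geodesic distance, great circles, tubes, Laplace-Beltrami operator,
eigenfunctions, TGCC, LS, and the question `Q1`) are in `Pool.Agent.Q73.TG.Defs`; `Fails p A` is in
`Pool.Agent.Q73.TG.Asm2`.
-/

set_option autoImplicit false

open MeasureTheory Set Pool.Agent.Q73.TG

namespace Pool.Agent.Results.MP_af75b4_an.TubesDoNotSuffice

/-- **Theorem (negative answer to Q1, for every `m ≥ 2` and every exponent `p ≠ 2` of the range).**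
For every `m ≥ 2` there is an open set `A ⊆ S^m`, such that the constant family `A_λ = A`
satisfies TGCC, but for every `2 < p ≤ 4` it is not `L^p`-Logvinenko-Sereda: there are
eigenfunctions `e` of arbitrarily large frequency with `∫_A |e|^p < η ∫ |e|^p` for every `η > 0`.
The same holds with another open set for all `1 ≤ p < 2`.  (Note `2m/(m-1) ≤ 4`.)  In particular Q1 is
false. -/
theorem result :
    (∀ m : ℕ, 2 ≤ m →
      (∃ A : Set (Sph m), IsOpen A ∧ TGCC (fun _ : ℝ => A) ∧
        ∀ p : ℝ, 2 < p → p ≤ 4 → Fails p A ∧ ¬ LS p (fun _ : ℝ => A)) ∧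
      (∃ A : Set (Sph m), IsOpen A ∧ TGCC (fun _ : ℝ => A) ∧
        ∀ p : ℝ, 1 ≤ p → p < 2 → Fails p A ∧ ¬ LS p (fun _ : ℝ => A))) ∧
    ¬ Q1 :=
  main

end Pool.Agent.Results.MP_af75b4_an.TubesDoNotSuffice
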